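import Mathlib
import Pool.Agent.H50.WaringNew

namespace Pool.Agent.Results.MP_1e0c69_ag.Counter

open MvPolynomial

theorem result : ∃ f g : MvPolynomial (Fin 3) ℂ, f ≠ 0 ∧ g ≠ 0 ∧
    f.IsHomogeneous 3 ∧ g.IsHomogeneous 2 ∧
    (∃ l : Fin 5 → MvPolynomial (Option (Fin 3)) ℂ, (∀ i, (l i).IsHomogeneous 1) ∧
      rename some f + X none * rename some g = ∑ i, l i ^ 3) ∧
    ∀ v : MvPolynomial (Fin 3) ℂ, v.IsHomogeneous 1 →
      ∀ (w : ℕ) (l : Fin w → MvPolynomial (Fin 3) ℂ), (∀ i, (l i).IsHomogeneous 1) →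
        f + v * g = ∑ i, l i ^ 3 → 3 ≤ w :=
  open Pool.Agent.H50.WaringNew in
  ⟨f, g, f_ne, g_ne, f_hom, g_hom, upper, lower⟩

end Pool.Agent.Results.MP_1e0c69_ag.Counter
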