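import Mathlib
import Pool.Agent.H80.WaringDefs
import Pool.Agent.H80.Waring

open Pool.Agent.H80.Waring MvPolynomial

theorem Pool.Agent.Results.MP_1e0c69_ag.NodalCubic.result :
    ∃ (n d : ℕ) (f g : MvPolynomial (Fin n) ℂ), 1 ≤ n ∧ 1 ≤ d ∧
      f.IsHomogeneous d ∧ g.IsHomogeneous (d - 1) ∧ f ≠ 0 ∧ g ≠ 0 ∧
      WR d (rename some f + X none * rename some g : MvPolynomial (Option (Fin n)) ℂ) <
        d + ⨅ v : Fin n → ℂ, WR d (f + lin v * g) := by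
  refine ⟨3, 3, f, g, by norm_num, by norm_num, hom_f, hom_g, f_ne, g_ne, ?_⟩
  have h1 := upper
  have h2 : 3 ≤ ⨅ v : Fin 3 → ℂ, WR 3 (f + lin v * g) := le_ciInf lower
  omega
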